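import Pool.Agent.NTW.StmtsB

/-!
# NTW squad (MP_e54c4c_gt), row SWU: exchange of the vertex `k` (`τ k = k`)
-/

set_option autoImplicit false

open Matrix Filter Topology

namespace Pool.Agent.NTW.H67

open Pool.Agent.PFS Pool.Agent.PFJ Pool.Agent.NTS Pool.Agent.NTW

theorem rst_perm {n K : ℕ} (w : Fin K → V n) (π : Equiv.Perm (Fin K)) (i j : Fin K) :
    rst (fun m => w (π m)) (π.symm i) (π.symm j) = rst w i j := by
  unfold rst
  refine Finset.sum_equiv π ?_ (fun m _ => rfl)
  intro m
  simp only [Finset.mem_erase, Finset.mem_univ, and_true, ne_eq, Equiv.eq_symm_apply]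

theorem ind2_of {n K : ℕ} {v : Fin K → V n} (hv : LinearIndependent ℝ v) {a b : Fin K}
    (hab : a ≠ b) : Ind2 (v a) (v b) := by
  have hinj : Function.Injective ![a, b] := by
    intro x y hxy
    fin_cases x <;> fin_cases y
    · rfl
    · exact absurd hxy hab
    · exact absurd hxy.symm hab
    · rfl
  have h1 := hv.comp ![a, b] hinj
  have e : v ∘ ![a, b] = ![v a, v b] := by
    funext m
    fin_cases m <;> rfl
  rw [e] at h1
  exact LinearIndependent.pair_iff.mp h1

theorem swu (hDcp : DcpStmt) (hEiw : EiwStmt) (hTwp : TwpStmt) (hChw : ChwStmt)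
    (hCn2 : Cn2Stmt) (_hTbx : TbxStmt) : SwuStmt := by
  intro n C Γ K c τ hD v v' k hv hv' hk hlab hcls
  obtain ⟨u, hu⟩ : ∃ u : Fin K → V n, u = fun i => if i = k then v' k else v i := ⟨_, rfl⟩
  rw [← hu]
  obtain ⟨hd1, hd2, -, -, -, -, -⟩ := hDcp n C Γ K c τ hD v' hv'
  obtain ⟨-, -, he3, -⟩ := hEiw n C Γ K c τ hD v hv
  obtain ⟨-, -, he3', he4'⟩ := hEiw n C Γ K c τ hD v' hv'
  have huk : u k = v' k := by rw [hu]; exact if_pos rfl
  have huo : ∀ i, i ≠ k → u i = v i := fun i hi => by rw [hu]; exact if_neg hi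
  have hτne : ∀ i, τ i ≠ i → i ≠ k := fun i hi h => hi (by rw [h]; exact hk)
  -- the function `f`
  have hf : ∀ a, ∃ j, u a ∈ Lf C τ v' j ∧ (τ a = a → j = a) ∧ (τ a ≠ a → τ j ≠ j) := by
    intro a
    by_cases ha : τ a = a
    · refine ⟨a, ?_, fun _ => rfl, fun h => absurd ha h⟩
      by_cases hak : a = k
      · rw [hak, huk]; exact hd1 k
      · obtain ⟨r, hr, hra⟩ := hlab a hak ha
        rw [huo a hak]
        have h1 := hd1 a
        have h2 := Submodule.smul_mem _ r⁻¹ h1
        rwa [hra, smul_smul, inv_mul_cancel₀ hr.ne', one_smul] at h2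
    · have hak : a ≠ k := hτne a ha
      obtain ⟨j, hj1, hj2⟩ := hcls a hak ha
      refine ⟨j, ?_, fun h => absurd h ha, fun _ => hj1⟩
      rw [huo a hak]; exact hj2
  choose f hf1 hf2 hf3 using hf
  have hfix : ∀ a, τ (f a) = f a → τ a = a := by
    intro a h
    by_contra hne
    exact hf3 a hne h
  have hnf : ∀ a, τ (f a) ≠ f a → τ a ≠ a := by
    intro a h1 h2
    apply h1
    rw [hf2 a h2]; exact h2
  have hc1 : ∀ a b, a ≠ b → (f b = f a ∨ f b = τ (f a)) → τ (f a) ≠ f a := by
    intro a b hab hor hfa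
    have hba : f b = f a := by
      rcases hor with h | h
      · exact h
      · rw [h, hfa]
    have ha := hfix a hfa
    have hb := hfix b (by rw [hba]; exact hfa)
    exact hab (((hf2 a ha).symm.trans hba.symm).trans (hf2 b hb))
  have hcl1 : ∀ a b, (f b = f a ∨ f b = τ (f a)) → τ (f a) ≠ f a →
      b ≠ k ∧ v b ∈ Lf C τ v' (f a) := by
    intro a b hor hfa
    have h1 : τ (f b) ≠ f b := by
      rcases hor with h | h
      · rw [h]; exact hfa
      · rw [h, hD.inv]; exact fun h' => hfa h'.symm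
    have h2 : b ≠ k := hτne b (hnf b h1)
    refine ⟨h2, ?_⟩
    have h3 := hf1 b
    rw [huo b h2] at h3
    rcases hor with h | h
    · rwa [h] at h3
    · rwa [h, hd2] at h3
  have hc2 : ∀ a b d, a ≠ b → a ≠ d → b ≠ d → (f b = f a ∨ f b = τ (f a)) →
      (f d = f a ∨ f d = τ (f a)) → False := by
    intro a b d hab had hbd hb hd
    have hfa := hc1 a b hab hb
    obtain ⟨-, ha2⟩ := hcl1 a a (Or.inl rfl) hfa
    obtain ⟨-, hb2⟩ := hcl1 a b hb hfa
    obtain ⟨-, hd2'⟩ := hcl1 a d hd hfa
    obtain ⟨-, -, -, h4⟩ := hTwp n C Γ K c τ hD v v' hv hv' (f a) a b hab ha2 hb2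
    rcases h4 d hd2' with h | h
    · exact had h.symm
    · exact hbd h.symm
  obtain ⟨π, hπ⟩ := hCn2 K τ f hD.inv hc1 hc2
  have hm : ∀ i, u (π i) ∈ Lf C τ v' i := by
    intro i
    have h1 := hf1 (π i)
    rcases hπ i with h | h
    · rwa [h] at h1
    · rwa [h, hd2 i] at h1
  have hπ1 : ∀ i, τ i = i → π i = i := by
    intro i hi
    have h1 : f (π i) = i := by
      rcases hπ i with h | h
      · exact h
      · rw [h, hi]
    have h2 : τ (π i) = π i := hfix _ (by rw [h1]; exact hi)
    exact (hf2 _ h2).symm.trans h1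
  have hπ2 : ∀ i, τ i ≠ i → τ (π i) ≠ π i := by
    intro i hi h
    have h1 : f (π i) = π i := hf2 _ h
    have h2 : τ (f (π i)) = f (π i) := by rw [h1]; exact h
    rcases hπ i with h3 | h3
    · rw [h3] at h2; exact hi h2
    · rw [h3, hD.inv] at h2; exact hi h2.symm
  have hcl : ∀ a, u a ∈ closure C ∧ u a ≠ 0 := by
    intro a
    by_cases hak : a = k
    · rw [hak, huk]; exact (he3' k).2
    · rw [huo a hak]; exact (he3 a).2
  have hπk : π k = k := hπ1 k hk
  have hπne : ∀ i, i ≠ k → π i ≠ k := fun i hi h => hi (π.injective (h.trans hπk.symm))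
  have hlin : LinearIndependent ℝ v :=
    Pool.Agent.PFS.H60.lin n C hD.toPCone (Fin K) v hv.pes.1
  obtain ⟨hw', -, -⟩ := hChw n C Γ K c τ hD v' hv' (fun i => u (π i))
    (fun i => ⟨hm i, (hcl _).1, (hcl _).2⟩) (by
      intro i hi
      have hik : i ≠ k := hτne i hi
      have hτik : τ i ≠ k := by
        intro h
        apply hik
        rw [← hD.inv i, h, hk]
      have e1 : u (π i) = v (π i) := huo _ (hπne i hik)
      have e2 : u (π (τ i)) = v (π (τ i)) := huo _ (hπne _ hτik)
      refine ⟨?_, ?_⟩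
      · change Ind2 (u (π i)) (u (π (τ i)))
        rw [e1, e2]
        exact ind2_of hlin (fun h => hi (π.injective h).symm)
      · change ¬ Unt C (Lf C τ v' i) (u (π i))
        refine (he4' i hi (u (π i)) (hm i) (hcl _).1).mp ?_
        rw [e1]
        exact (he3 _).1)
  have hck : ∀ i, i ≠ k → c (π i) k = c i k := by
    intro i hik
    by_cases hi : τ i = i
    · rw [hπ1 i hi]
    · have aux : ∀ m, τ m ≠ m → c m k = 2 := by
        intro m hm
        have hmk := hτne m hm
        have hτm : k ≠ τ m := by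
          intro h
          apply hmk
          rw [← hD.inv m, ← h, hk]
        exact le_antisymm (hD.leaf m hm k hmk.symm hτm) (hD.two m k hmk)
      rw [aux i hi, aux _ (hπ2 i hi)]
  have hcc : ∀ i j, i ≠ j → c (π i) (π j) = c i j := by
    intro i j hij
    by_cases hjk : j = k
    · rw [hjk, hπk]
      exact hck i (by rw [← hjk]; exact hij)
    · by_cases hik : i = k
      · rw [hik, hπk, hD.sym k (π j), hD.sym k j]
        exact hck j hjk
      · have h1 := hD.dim v hv (π i) (π j) (fun h => hij (π.injective h))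
        have h2 : Module.finrank ℝ (Fs C (u (π i)) (u (π j))) = c i j :=
          hD.dim _ hw' i j hij
        rw [huo _ (hπne i hik), huo _ (hπne j hjk)] at h2
        exact h1.symm.trans h2
  refine ⟨?_, ?_⟩
  · have h1 := (Pool.Agent.PFS.H60.elm n C Γ hD.toCC (Fin K) (fun i => u (π i)) hw'.pes).2.2.1
      (Fin K) π.symm
    have h2 : (fun i => (fun i => u (π i)) (π.symm i)) = u := by
      funext i
      change u (π (π.symm i)) = u i
      rw [Equiv.apply_symm_apply]
    rw [h2] at h1
    exact h1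
  · intro i j hij
    have hne : π.symm i ≠ π.symm j := fun h => hij (π.symm.injective h)
    obtain ⟨L, hL, hdim⟩ := hw'.pb (π.symm i) (π.symm j) hne
    refine ⟨L, ⟨?_, ?_, ?_⟩, ?_⟩
    · have h1 : u (π (π.symm i)) ∈ L := hL.left
      rwa [Equiv.apply_symm_apply] at h1
    · have h1 : u (π (π.symm j)) ∈ L := hL.right
      rwa [Equiv.apply_symm_apply] at h1
    · intro x hx hx2
      refine hL.box x hx ?_
      rw [rst_perm]
      exact hx2
    · have h1 := hcc (π.symm i) (π.symm j) hne
      rw [Equiv.apply_symm_apply, Equiv.apply_symm_apply] at h1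
      rw [h1]
      exact hdim

end Pool.Agent.NTW.H67
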